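import Pool.Agent.Q103.VR.Def

/-!
# Varieties whose subvarieties carry maps with many preperiodic points: definitions
-/

set_option autoImplicit false

namespace Pool.Agent.J6H55.CC

open Polynomial
open Pool.Agent.Q103.EC (prePer Isotrivial)
open Pool.Agent.Q103.VR (DefinedOver)

/-- `E` is the function field of a complex variety `V`. There are finitely many rational maps `p j / q j` of
the projective line over `E`, of degrees `d j ≥ 2`, the `j`-th with at least `B (d j)` preperiodic points in
`P^1(E)`, whose joint moduli map `V ⇢ ∏ M_{d j}` is generically finite: if all the maps are conjugate over an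
algebraic closure of `E` to maps with coefficients algebraic over `F`, `ℂ ⊆ F ⊆ E`, then `E` is algebraic
over `F`. -/
def Carries (B : ℕ → ℕ) (E : Type) [Field E] [Algebra ℂ E] : Prop :=
  ∃ (J : Type) (_ : Fintype J) (d : J → ℕ) (p q : J → E[X]), (∀ j, 2 ≤ d j) ∧
    (∀ j, IsCoprime (p j) (q j)) ∧ (∀ j, max (p j).natDegree (q j).natDegree = d j) ∧
    (∀ j, (B (d j) : ℕ∞) ≤ (prePer (d j) (p j) (q j)).encard) ∧
    ∀ F : IntermediateField ℂ E, (∀ j, DefinedOver (d j) (p j) (q j) F) → Algebra.IsAlgebraic F E

/-- `E` is the function field of a complex variety `V`. There is a rational map `p / q` of the projective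
line over `E`, of degree `d ≥ 2`, with at least `B d` preperiodic points in `P^1(E)`, which is not
isotrivial. -/
def CarriesOne (B : ℕ → ℕ) (E : Type) [Field E] [Algebra ℂ E] : Prop :=
  ∃ (d : ℕ) (p q : E[X]), 2 ≤ d ∧ IsCoprime p q ∧ max p.natDegree q.natDegree = d ∧
    (B d : ℕ∞) ≤ (prePer d p q).encard ∧ ¬ Isotrivial ℂ d p q

end Pool.Agent.J6H55.CC
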