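import Pool.Agent.J6H55.CC.Gen
import Pool.Agent.Q103.SF.Fin2

/-!
# Entire curves in projective varieties of any dimension

The proofs of `Pool.Agent.Q103.SF` (surfaces, helper103) in any dimension.
-/

set_option autoImplicit false
set_option linter.overlappingInstances false
set_option linter.unusedSectionVars false

namespace Pool.Agent.J6H55.CC

open FF Filter Metric Topology
open Pool.Agent.W602.GT (IsForm val coords GeneralType val_smul)
open Pool.Agent.Y216 (OnVar)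
open Pool.Agent.Y221.PD
open Pool.Agent.Y221.BD (EntireCurve)
open Pool.Agent.Y221.AP (MK MInf MI)
open Pool.Agent.W603.LV (canDeg)
open Pool.Agent.TH466.QG (SubOf)
open Pool.Agent.Q271.RC (IsGeneric IsPoint Nonconst)
open Pool.Agent.Q103.SF (van vanOn lowCurves S_gpc exists_trdeg_of_gen gt_of_canDeg exists_mk
  disc_of_entire exists_common diff_eval)
open Pool.Agent.J6H55.MF (exists_coords')

variable {M : ℕ} {K : Type} [Field K] [Algebra ℂ K] {x : Fin (M + 1) → K}

/-- the field of the coordinates of a point -/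
theorem point_field {Ω : Type} [Field Ω] [Algebra ℂ Ω] {z : Fin (M + 1) → Ω} (hz : z ≠ 0) :
    ∃ (s : Ω) (v : Fin (M + 1) → coords ℂ z), s ≠ 0 ∧ (∀ i, z i = s * ((v i : coords ℂ z) : Ω)) ∧
      v ≠ 0 ∧ coords ℂ v = ⊤ ∧
      ∀ G : MvPolynomial (Fin (M + 1)) ℂ, IsForm G → (val v G = 0 ↔ val z G = 0) := by
  obtain ⟨s, u, hs, hyu, hu, hgen⟩ := exists_coords' (k := ℂ) hz
  refine ⟨s, u, hs, hyu, hu, hgen, fun G hG => ?_⟩
  obtain ⟨e, he⟩ := hG
  have h1 : z = fun i => s * ((u i : coords ℂ z) : Ω) := funext hyu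
  have h3 : val (fun i => ((u i : coords ℂ z) : Ω)) G = algebraMap (coords ℂ z) Ω (val u G) := by
    unfold Pool.Agent.W602.GT.val
    exact MvPolynomial.aeval_algebraMap_apply Ω u G
  have h2 : val z G = s ^ e * algebraMap (coords ℂ z) Ω (val u G) := by
    rw [← h3, ← val_smul he s, ← h1]
  rw [h2, mul_eq_zero, or_iff_right (pow_ne_zero _ hs), map_eq_zero]

/-- **Points over the field of the functions meromorphic near infinity.** -/
theorem point_low {z : Fin (M + 1) → MK}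
    (hspec : ∀ G : MvPolynomial (Fin (M + 1)) ℂ, IsForm G → val x G = 0 → val z G = 0)
    {j k : Fin (M + 1)} (hk : z k ≠ 0) (hjk : ¬ MInf (z j / z k))
    (hno : ∀ (E : Type) [Field E] [Algebra ℂ E] (t : ℕ) (v : Fin (M + 1) → E), SubOf ℂ x v →
      (∀ G : MvPolynomial (Fin (M + 1)) ℂ, IsForm G → (val v G = 0 ↔ val z G = 0)) → 2 ≤ t →
      Algebra.trdeg ℂ E = t → False) : van z ∈ lowCurves x := by
  classical
  have hG1 : S_gpc := Pool.Agent.Q285.SFG.t_gpc
  have hz0 : z ≠ 0 := fun h0 => hk (congrFun h0 k)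
  obtain ⟨s, v, hs, hvz, hv0, hvgen, hval⟩ := point_field hz0
  have hzjk : algebraMap (coords ℂ z) MK (v j / v k) = z j / z k := by
    rw [hvz j, hvz k, mul_div_mul_left _ _ hs, map_div₀]
    rfl
  obtain ⟨t, ht⟩ := exists_trdeg_of_gen hvgen
  have htlt : t < 2 := by
    by_contra hcon
    exact hno _ t v ⟨hv0, hvgen, fun G hG hGx => (hval G hG).2 (hspec G hG hGx)⟩ hval
      (not_lt.1 hcon) ht
  have htne0 : t ≠ 0 := by
    intro h0
    rw [h0, Nat.cast_zero, trdeg_eq_zero_iff] at ht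
    have hint : Algebra.IsIntegral ℂ (coords ℂ z) := Algebra.isAlgebraic_iff_isIntegral.1 ht
    obtain ⟨c, hc⟩ := (IsAlgClosed.algebraMap_bijective_of_isIntegral (k := ℂ)
      (K := coords ℂ z)).2 (v j / v k)
    apply hjk
    have h2 : z j / z k = algebraMap ℂ MK c := by
      rw [← hzjk, ← hc]
      rfl
    rw [h2]
    exact MI.algebraMap_mem c
  have ht1 : t = 1 := by omega
  subst ht1
  have hess : Algebra.EssFiniteType ℂ (coords ℂ z) := Pool.Agent.Q72.NA.ess_of_adjoin hvgen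
  have hff : IsFF ℂ (coords ℂ z) := ⟨hess, by rw [ht]; simp⟩
  obtain ⟨k', hk'⟩ := Function.ne_iff.1 hv0
  refine ⟨coords ℂ z, inferInstance, inferInstance, hff, v, ⟨⟨k', hk'⟩, fun G hG hGx =>
    (hval G hG).2 (hspec G hG hGx)⟩, hvgen, ?_, ?_⟩
  · by_contra hcon
    rw [not_le] at hcon
    have h1 := hG1 (coords ℂ z) (gt_of_canDeg hcon) (v j / v k)
    rw [hzjk] at h1
    exact hjk h1
  · ext G
    constructor
    · rintro ⟨hG, h⟩
      exact ⟨hG, (hval G hG).2 h⟩
    · rintro ⟨hG, h⟩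
      exact ⟨hG, (hval G hG).1 h⟩

/-- **Punctured discs.** -/
theorem disc_low {f : ℂ → Fin (M + 1) → ℂ} (hf : EssentialDisc x f)
    (hno : ∀ (E : Type) [Field E] [Algebra ℂ E] (t : ℕ) (v : Fin (M + 1) → E), SubOf ℂ x v →
      (∀ G : MvPolynomial (Fin (M + 1)) ℂ, IsForm G →
        (val v G = 0 ↔ ∀ t ∈ ball (0 : ℂ) 1 \ {0}, MvPolynomial.eval (f t) G = 0)) → 2 ≤ t →
      Algebra.trdeg ℂ E = t → False) :
    vanOn (ball (0 : ℂ) 1 \ {0}) f ∈ lowCurves x := by
  obtain ⟨z, hz, j, k, hk, hjk⟩ := exists_mk hf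
  have h1 := point_low (x := x) (z := z) (fun G hG hGx => (hz G).2 (hf.mem G hG hGx)) hk hjk
    (fun E _ _ t v hv hval h2 ht => hno E t v hv (fun G hG => (hval G hG).trans (hz G)) h2 ht)
  have h2 : van z = vanOn (ball (0 : ℂ) 1 \ {0}) f := by
    ext G
    exact ⟨fun h => ⟨h.1, (hz G).1 h.2⟩, fun h => ⟨h.1, (hz G).2 h.2⟩⟩
  rwa [h2] at h1

/-- **Entire curves.** -/
theorem entire_low {f : Fin (M + 1) → ℂ → ℂ} (hf : EntireCurve x f)
    (hno : ∀ (E : Type) [Field E] [Algebra ℂ E] (t : ℕ) (v : Fin (M + 1) → E), SubOf ℂ x v →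
      (∀ G : MvPolynomial (Fin (M + 1)) ℂ, IsForm G →
        (val v G = 0 ↔ ∀ t, MvPolynomial.eval (fun i => f i t) G = 0)) → 2 ≤ t →
      Algebra.trdeg ℂ E = t → False) :
    vanOn Set.univ (fun t i => f i t) ∈ lowCurves x := by
  have hiff : ∀ G : MvPolynomial (Fin (M + 1)) ℂ,
      (∀ t ∈ ball (0 : ℂ) 1 \ {0}, MvPolynomial.eval (fun i => f i (Complex.sin t⁻¹)) G = 0) ↔
        ∀ t, MvPolynomial.eval (fun i => f i t) G = 0 := by
    intro G
    constructor
    · intro h t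
      obtain ⟨w, hw, hws⟩ := Pool.Agent.W603.BP.sin_point t
      have h3 := h w hw
      simp only [hws] at h3
      exact h3
    · intro h t _
      exact h _
  have h1 := disc_low (disc_of_entire hf)
    (fun E _ _ t v hv hval h2 ht => hno E t v hv (fun G hG => (hval G hG).trans (hiff G)) h2 ht)
  have h2 : vanOn (ball (0 : ℂ) 1 \ {0}) (fun w i => f i (Complex.sin w⁻¹)) =
      vanOn Set.univ (fun t i => f i t) := by
    ext G
    constructor
    · rintro ⟨hG, h⟩
      exact ⟨hG, fun t _ => (hiff G).1 h t⟩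
    · rintro ⟨hG, h⟩
      exact ⟨hG, fun t _ => h _ (Set.mem_univ _)⟩
  rwa [h2] at h1

end Pool.Agent.J6H55.CC
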