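import Pool.Agent.J6H55.MF.Rel
import Pool.Agent.Q103.SF.Main

/-!
# Curves in projective varieties of any dimension, by noetherian induction

The projective variety `X` with the generic point `x` is such that every closed subvariety of dimension at
least two is hyperbolic modulo a proper closed subset. Then the closed curves of genus at most one in `X`
are finite in number, and the degree of the maps from the other curves is bounded by the genus.
-/

set_option autoImplicit false
set_option linter.overlappingInstances false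

namespace Pool.Agent.J6H55.CC

open FF
open Pool.Agent.W602.GT (IsForm val coords GeneralType val_smul)
open Pool.Agent.Y216 (OnVar)
open Pool.Agent.W603.LV (canDeg)
open Pool.Agent.W603.PV (pht)
open Pool.Agent.TH466.QG (SubOf)
open Pool.Agent.Q103.EC (HypOff)
open Pool.Agent.Q96.HE (SameCurve exists_curve curve_map eul)
open Pool.Agent.Q271.RC (IsGeneric IsPoint Nonconst)
open Pool.Agent.Q103.SF (van lowCurves)
open Pool.Agent.J6H55.MF (exists_coords')

/-- the generic point of a prime ideal -/
theorem exists_generic {k : Type} [Field k] {M : ℕ} (p : Ideal (MvPolynomial (Fin (M + 1)) k))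
    [hp : p.IsPrime] (hX : ∃ j, (MvPolynomial.X j : MvPolynomial (Fin (M + 1)) k) ∉ p) :
    ∃ (E : Type) (_ : Field E) (_ : Algebra k E) (z : Fin (M + 1) → E), z ≠ 0 ∧ coords k z = ⊤ ∧
      ∀ G : MvPolynomial (Fin (M + 1)) k, IsForm G → (val z G = 0 ↔ G ∈ p) := by
  classical
  let A := MvPolynomial (Fin (M + 1)) k ⧸ p
  let F := FractionRing A
  let y : Fin (M + 1) → F := fun i => algebraMap A F (Ideal.Quotient.mk p (MvPolynomial.X i))
  have hval : ∀ G : MvPolynomial (Fin (M + 1)) k, val y G = algebraMap A F (Ideal.Quotient.mk p G) := by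
    intro G
    have h1 : (MvPolynomial.aeval y : MvPolynomial (Fin (M + 1)) k →ₐ[k] F) =
        (Algebra.ofId A F |>.restrictScalars k).comp (Ideal.Quotient.mkₐ k p) := by
      apply MvPolynomial.algHom_ext
      intro i
      rw [MvPolynomial.aeval_X]
      rfl
    unfold val
    rw [h1]
    rfl
  have hmem : ∀ G : MvPolynomial (Fin (M + 1)) k, val y G = 0 ↔ G ∈ p := by
    intro G
    rw [hval, map_eq_zero_iff _ (IsFractionRing.injective A F), Ideal.Quotient.eq_zero_iff_mem]
  have hy : y ≠ 0 := by
    obtain ⟨j, hj⟩ := hX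
    intro h0
    apply hj
    rw [← hmem]
    unfold val
    rw [MvPolynomial.aeval_X, h0]
    rfl
  obtain ⟨s, u, hs, hyu, hu, hgen⟩ := exists_coords' (k := k) hy
  refine ⟨coords k y, inferInstance, inferInstance, u, hu, hgen, fun G hG => ?_⟩
  obtain ⟨e, he⟩ := hG
  rw [← hmem]
  have h1 : y = fun i => s * ((u i : coords k y) : F) := funext hyu
  have h2 : val y G = s ^ e * algebraMap (coords k y) F (val u G) := by
    have h3 : val (fun i => ((u i : coords k y) : F)) G = algebraMap (coords k y) F (val u G) := by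
      unfold val
      exact MvPolynomial.aeval_algebraMap_apply F u G
    rw [← h3, ← val_smul he s, ← h1]
  rw [h2, mul_eq_zero, or_iff_right (pow_ne_zero _ hs), map_eq_zero]

/-- points of curves -/
theorem sameCurve_of {M : ℕ} {E : Type} [Field E] [Algebra ℂ E] {z : Fin (M + 1) → E} {w : ℕ}
    (hz : IsGeneric z) (hw : Algebra.trdeg ℂ E = w) {L : Type} [Field L] [Algebra ℂ L] [IsFF ℂ L]
    {v : Fin (M + 1) → L} (hv : Nonconst v) (hzv : IsPoint z v) :
    1 ≤ w ∧ (w = 1 → SameCurve z v) := by
  obtain ⟨M0, i1, i2, i3, w0, hw0, hs0⟩ := exists_curve hv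
  have hpt : IsPoint z w0 := fun G D hG hGz => (hs0 G D hG).2 (hzv G D hG hGz)
  have ht : Algebra.trdeg ℂ M0 = (1 : ℕ) := by
    rw [IsFF.trdeg (k := ℂ) (K := M0)]
    simp
  obtain ⟨h1, h2⟩ := Pool.Agent.Q96.OS.gen_point' hz hw M0 w0 1 hpt hw0 ht
  refine ⟨h1, fun hw1 => ?_⟩
  obtain ⟨σ, l, hl, hwl, -⟩ := h2 hw1.symm
  intro G D hG
  rw [← hs0 G D hG]
  have h3 : w0 = fun i => l * (fun i => σ (z i)) i := funext hwl
  have h4 : val (fun i => σ (z i)) G = σ (val z G) := by
    unfold val
    rw [MvPolynomial.comp_aeval_apply]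
  have h5 : val w0 G = l ^ D * σ (val z G) := by
    rw [h3, val_smul hG, h4]
  show val z G = 0 ↔ val w0 G = 0
  rw [h5, mul_eq_zero, or_iff_right (pow_ne_zero _ hl), map_eq_zero]

theorem isGeneric_of {M : ℕ} {E : Type} [Field E] [Algebra ℂ E] {z : Fin (M + 1) → E} (hz : z ≠ 0)
    (hgen : coords ℂ z = ⊤) : IsGeneric z := by
  obtain ⟨i, hi⟩ := Function.ne_iff.1 hz
  exact ⟨⟨i, hi⟩, hgen⟩

/-- **Noetherian induction.** -/
theorem alg_all {M : ℕ} {K : Type} [Field K] [Algebra ℂ K] {x : Fin (M + 1) → K}
    (H : ∀ (E : Type) [Field E] [Algebra ℂ E] (w : ℕ) (z : Fin (M + 1) → E), SubOf ℂ x z →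
      2 ≤ w → Algebra.trdeg ℂ E = w → ∃ R, HypOff z R)
    (I : Ideal (MvPolynomial (Fin (M + 1)) ℂ)) (hI : ∀ G, IsForm G → val x G = 0 → G ∈ I) :
    ∃ (A : ℕ) (W : Set (Set (MvPolynomial (Fin (M + 1)) ℂ))), W.Finite ∧ W ⊆ lowCurves x ∧
      ∀ (L : Type) [Field L] [Algebra ℂ L] [IsFF ℂ L] (v : Fin (M + 1) → L), Nonconst v →
        (∀ G ∈ I, MvPolynomial.aeval v G = 0) → pht ℂ v ≤ A * canDeg ℂ L ∨ van v ∈ W := by
  classical
  induction I using WellFoundedGT.induction with
  | ind I ih =>
    have key : ∀ p ∈ I.minimalPrimes, ∃ (A : ℕ) (W : Set (Set (MvPolynomial (Fin (M + 1)) ℂ))),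
        W.Finite ∧ W ⊆ lowCurves x ∧
        ∀ (L : Type) [Field L] [Algebra ℂ L] [IsFF ℂ L] (v : Fin (M + 1) → L), Nonconst v →
          (∀ G ∈ p, MvPolynomial.aeval v G = 0) → pht ℂ v ≤ A * canDeg ℂ L ∨ van v ∈ W := by
      intro p hp
      have hpp : p.IsPrime := hp.1.1
      have hIp : I ≤ p := hp.1.2
      by_cases hX : ∃ j, (MvPolynomial.X j : MvPolynomial (Fin (M + 1)) ℂ) ∉ p
      · obtain ⟨E, i1, i2, z, hz, hgen, hzp⟩ := exists_generic p hX
        have hsub : SubOf ℂ x z := ⟨hz, hgen, fun G hG hGx => (hzp G hG).2 (hIp (hI G hG hGx))⟩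
        have hgz := isGeneric_of hz hgen
        obtain ⟨w, hw⟩ := Pool.Agent.Q103.SF.exists_trdeg_of_gen hgen
        have hpt : ∀ (L : Type) [Field L] [Algebra ℂ L] (v : Fin (M + 1) → L),
            (∀ G ∈ p, MvPolynomial.aeval v G = 0) → IsPoint z v := fun L _ _ v hv G D hG hGz =>
          hv G ((hzp G ⟨D, hG⟩).1 hGz)
        rcases Nat.lt_or_ge w 2 with hw2 | hw2
        · rcases Nat.eq_zero_or_pos w with h0 | h0
          · refine ⟨0, ∅, Set.finite_empty, Set.empty_subset _, fun L _ _ _ v hv hvp => ?_⟩
            obtain ⟨h1, -⟩ := sameCurve_of hgz hw hv (hpt L v hvp)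
            omega
          · have hw1 : w = 1 := by omega
            subst hw1
            have hff : IsFF ℂ E := ⟨Pool.Agent.Q72.NA.ess_of_adjoin hgen, by rw [hw]; simp⟩
            -- the degree of the curve
            have hmap : ∀ (L : Type) [Field L] [Algebra ℂ L] [IsFF ℂ L] (v : Fin (M + 1) → L),
                Nonconst v → (∀ G ∈ p, MvPolynomial.aeval v G = 0) →
                ∃ r : ℕ, 0 < r ∧ pht ℂ v = r * pht ℂ z ∧ r * canDeg ℂ E ≤ canDeg ℂ L := by
              intro L _ _ _ v hv hvp
              have hs := (sameCurve_of hgz hw hv (hpt L v hvp)).2 rfl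
              have hv0 : ∃ j, v j ≠ 0 := by
                obtain ⟨i, j, hj, -⟩ := hv
                exact ⟨j, hj⟩
              obtain ⟨r, hr, hr1, hr2⟩ := curve_map hgz hv0 hs
                ({1} : Set (MvPolynomial (Fin (M + 1)) ℂ)) (by
                  intro F hF
                  rw [Set.mem_singleton_iff] at hF
                  rw [hF]
                  exact ⟨0, MvPolynomial.isHomogeneous_one _ _⟩) Pool.Agent.Q103.SF.not_lies
              rw [Pool.Agent.Q103.SF.eul_one hgz.1, Pool.Agent.Q103.SF.eul_one hv0] at hr2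
              exact ⟨r, hr, hr1, hr2⟩
            rcases le_or_gt (canDeg ℂ E) 0 with hc | hc
            · refine ⟨0, {van z}, Set.finite_singleton _, ?_, fun L _ _ _ v hv hvp => ?_⟩
              · rw [Set.singleton_subset_iff]
                exact ⟨E, inferInstance, inferInstance, hff, z, ⟨hgz.1, hsub.spec⟩, hgen, hc, rfl⟩
              · right
                have hs := (sameCurve_of hgz hw hv (hpt L v hvp)).2 rfl
                rw [Set.mem_singleton_iff]
                ext G
                constructor
                · rintro ⟨⟨D, hD⟩, h⟩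
                  exact ⟨⟨D, hD⟩, (hs G D hD).2 h⟩
                · rintro ⟨⟨D, hD⟩, h⟩
                  exact ⟨⟨D, hD⟩, (hs G D hD).1 h⟩
            · have hnz : Nonconst z := Pool.Agent.Q96.LS.nonconst_of hgz hw
              have hpz := Pool.Agent.Q96.LS.pht_pos z hnz
              refine ⟨(pht ℂ z).toNat, ∅, Set.finite_empty, Set.empty_subset _,
                fun L _ _ _ v hv hvp => Or.inl ?_⟩
              obtain ⟨r, hr, hr1, hr2⟩ := hmap L v hv hvp
              rw [Int.toNat_of_nonneg hpz.le, hr1]
              have hr' : (0 : ℤ) < r := by exact_mod_cast hr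
              have h3 : (r : ℤ) ≤ canDeg ℂ L := by nlinarith
              rw [mul_comm]
              exact mul_le_mul_of_nonneg_left h3 hpz.le
        · obtain ⟨R, hR⟩ := H E w z hsub hw2 hw
          have hRp : R ∉ p := fun h => hR.ne ((hzp R hR.form).2 h)
          have hlt : I < p ⊔ Ideal.span {R} := by
            refine lt_of_le_of_lt hIp (lt_of_le_of_ne le_sup_left ?_)
            intro heq
            apply hRp
            rw [heq]
            exact (le_sup_right : Ideal.span {R} ≤ p ⊔ Ideal.span {R}) (Ideal.subset_span rfl)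
          obtain ⟨A1, W, hW, hWl, h1⟩ := ih _ hlt (fun G hG hGx => hlt.le (hI G hG hGx))
          obtain ⟨A2, hA2⟩ := hR.degree
          refine ⟨max A1 A2, W, hW, hWl, fun L _ _ _ v hv hvp => ?_⟩
          have hpv := Pool.Agent.Q96.LS.pht_pos v hv
          have hv0 : ∃ j, v j ≠ 0 := by
            obtain ⟨i, j, hj, -⟩ := hv
            exact ⟨j, hj⟩
          by_cases hvR : MvPolynomial.aeval v R = 0
          · rcases h1 L v hv (by
              intro H hH
              obtain ⟨a, ha, b, hb, rfl⟩ := Submodule.mem_sup.1 hH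
              obtain ⟨c, rfl⟩ := Ideal.mem_span_singleton'.1 hb
              rw [map_add, map_mul, hvp a ha, hvR, mul_zero, add_zero]) with h2 | h2
            · left
              have hc : 0 < canDeg ℂ L := by
                by_contra hcon
                rw [not_lt] at hcon
                have h7 := mul_nonpos_of_nonneg_of_nonpos (Int.natCast_nonneg A1) hcon
                linarith
              refine h2.trans (mul_le_mul_of_nonneg_right ?_ hc.le)
              exact_mod_cast le_max_left A1 A2
            · exact Or.inr h2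
          · left
            have h2 := hA2 L v ⟨hv0, fun G hG hGz => hvp G ((hzp G hG).1 hGz)⟩ hvR
            have hc : 0 < canDeg ℂ L := by
              by_contra hcon
              rw [not_lt] at hcon
              rw [max_eq_right hcon, mul_zero] at h2
              linarith
            rw [max_eq_left hc.le] at h2
            refine h2.trans (mul_le_mul_of_nonneg_right ?_ hc.le)
            exact_mod_cast le_max_right A1 A2
      · push Not at hX
        refine ⟨0, ∅, Set.finite_empty, Set.empty_subset _, fun L _ _ _ v hv hvp => ?_⟩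
        obtain ⟨i, j, hj, -⟩ := hv
        have h1 := hvp _ (hX j)
        rw [MvPolynomial.aeval_X] at h1
        exact absurd h1 hj
    choose! A W hW hWl hA using key
    have hfin : I.minimalPrimes.Finite := Ideal.finite_minimalPrimes_of_isNoetherianRing _ I
    refine ⟨∑ p ∈ hfin.toFinset, A p, ⋃ p ∈ I.minimalPrimes, W p, hfin.biUnion hW,
      Set.iUnion₂_subset hWl, fun L _ _ _ v hv hvI => ?_⟩
    have hker : (RingHom.ker (MvPolynomial.aeval v :
      MvPolynomial (Fin (M + 1)) ℂ →ₐ[ℂ] L)).IsPrime := RingHom.ker_isPrime _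
    obtain ⟨p, hp, hpf⟩ := Ideal.exists_minimalPrimes_le
      (I := I) (J := RingHom.ker (MvPolynomial.aeval v : MvPolynomial (Fin (M + 1)) ℂ →ₐ[ℂ] L))
      (fun H hH => RingHom.mem_ker.2 (hvI H hH))
    have hpv := Pool.Agent.Q96.LS.pht_pos v hv
    rcases hA p hp L v hv (fun H hH => RingHom.mem_ker.1 (hpf hH)) with h1 | h1
    · left
      have hc : 0 < canDeg ℂ L := by
        by_contra hcon
        rw [not_lt] at hcon
        have h7 := mul_nonpos_of_nonneg_of_nonpos (Int.natCast_nonneg (A p)) hcon
        linarith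
      refine h1.trans (mul_le_mul_of_nonneg_right ?_ hc.le)
      exact_mod_cast Finset.single_le_sum (f := A) (fun _ _ => Nat.zero_le _)
        ((Set.Finite.mem_toFinset hfin).2 hp)
    · right
      exact Set.mem_iUnion₂.2 ⟨p, hp, h1⟩

end Pool.Agent.J6H55.CC
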