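import Pool.Agent.Q103.SF.Defs2

/-!
# The special sets of Lang: definitions
-/

set_option autoImplicit false

namespace Pool.Agent.J6H55.CC

open Pool.Agent.Y221.PD (MeroMap)
open Pool.Agent.Y221.BD (EntireCurve)
open Pool.Agent.Q103.SF (vanOn lowCurves entForms lowForms meroForms ellForms)

/-- All the special sets are equal to the closure of the union of the curves of geometric genus `≤ 1`. -/
structure EqualSets {M : ℕ} {K : Type} [Field K] [Algebra ℂ K] (x : Fin (M + 1) → K) : Prop where
  /-- the Zariski closure of an entire curve is a curve of genus `≤ 1` -/
  entire : ∀ f, EntireCurve x f → vanOn Set.univ (fun t i => f i t) ∈ lowCurves x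
  /-- the Zariski closure of a meromorphic image of `ℂ ^ g` is a curve of genus `≤ 1` -/
  mero : ∀ g u, MeroMap x g u → vanOn Set.univ (fun t i => u i t) ∈ lowCurves x
  /-- the closures of the unions of the entire curves, of the meromorphic images of affine spaces, of the
  images of elliptic curves, and of the curves of genus `≤ 1`, coincide -/
  ent_eq : entForms x = lowForms x
  mero_eq : meroForms x = lowForms x
  ell_eq : ellForms x = lowForms x

end Pool.Agent.J6H55.CC
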