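import Pool.Agent.J6H55.CC.Mero

/-!
# Special sets of projective varieties of any dimension

The projective variety `X` with the generic point `x` is such that every closed subvariety of dimension at
least two is hyperbolic modulo a proper closed subset.
-/

set_option autoImplicit false
set_option linter.overlappingInstances false
set_option linter.unusedSectionVars false

namespace Pool.Agent.J6H55.CC

open FF Filter Metric Topology
open Pool.Agent.W602.GT (IsForm val coords GeneralType val_smul)
open Pool.Agent.Y216 (OnVar)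
open Pool.Agent.Y221.PD
open Pool.Agent.Y221.BD (EntireCurve)
open Pool.Agent.W603.LV (canDeg)
open Pool.Agent.W603.PV (pht)
open Pool.Agent.TH466.QG (SubOf)
open Pool.Agent.Q271.RC (IsGeneric IsPoint Nonconst)
open Pool.Agent.Q103.EC (HypOff)
open Pool.Agent.Q103.SF

variable {M : ℕ} {K : Type} [Field K] [Algebra ℂ K] {x : Fin (M + 1) → K}

/-- **Special sets.** -/
theorem special_all (H : ∀ (E : Type) [Field E] [Algebra ℂ E] (w : ℕ) (z : Fin (M + 1) → E),
      SubOf ℂ x z → 2 ≤ w → Algebra.trdeg ℂ E = w → ∃ R, HypOff z R) :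
    SpecialSets x := by
  classical
  have hlow : S_low := Pool.Agent.Q24.SF.low_curve Pool.Agent.Q95.SF.wei Pool.Agent.Q111.SF.cls
  let I : Ideal (MvPolynomial (Fin (M + 1)) ℂ) := Ideal.span {G | IsForm G ∧ val x G = 0}
  obtain ⟨A, W, hW, hWl, hA⟩ := alg_all H I (fun G hG hGx => Ideal.subset_span ⟨hG, hGx⟩)
  have hI : ∀ (L : Type) [Field L] [Algebra ℂ L] (v : Fin (M + 1) → L), OnVar ℂ x v →
      ∀ G ∈ I, MvPolynomial.aeval v G = 0 := by
    intro L _ _ v hv G hG
    have h1 : I ≤ RingHom.ker (MvPolynomial.aeval v : MvPolynomial (Fin (M + 1)) ℂ →ₐ[ℂ] L) := by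
      rw [Ideal.span_le]
      rintro G ⟨hG, hGx⟩
      exact RingHom.mem_ker.2 (hv.2 G hG hGx)
    exact RingHom.mem_ker.1 (h1 hG)
  have hfin : (lowCurves x).Finite := by
    refine hW.subset ?_
    rintro V ⟨L, _, _, _, v, hv, hgen, hc, rfl⟩
    have hn := nonconst_of_low hv hgen
    have hp := Pool.Agent.Q96.LS.pht_pos v hn
    rcases hA L v hn (hI L v hv) with h1 | h1
    · exfalso
      have h7 := mul_nonpos_of_nonneg_of_nonpos (Int.natCast_nonneg A) hc
      linarith
    · exact h1
  have hent : ∀ f, EntireCurve x f → vanOn Set.univ (fun t i => f i t) ∈ lowCurves x := by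
    intro f hf
    refine CC.entire_low hf fun E _ _ t v hv hval h2 ht => ?_
    obtain ⟨R, hR⟩ := H E t v hv h2 ht
    exact hR.ne ((hval R hR.form).2 (hR.curve f ⟨hf.hol, hf.ne,
      fun G hG hGv t => (hval G hG).1 hGv t, hf.nonconst⟩))
  exact
    { finite := hfin
      entire := hent
      curves := fun V hV => curve_of_low hlow hV
      elliptic := fun V hV => ell_of_low hV
      mero := fun g u hu => by
        refine CC.mero_low hu hent fun E _ _ t v hv hval h2 ht => ?_
        obtain ⟨R, hR⟩ := H E t v hv h2 ht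
        exact hR.ne ((hval R hR.form).2 (hR.mero g u ⟨hu.hol,
          fun G hG hGv t => (hval G hG).1 hGv t, hu.nonconst⟩))
      disc := fun f hf => by
        refine CC.disc_low hf fun E _ _ t v hv hval h2 ht => ?_
        obtain ⟨R, hR⟩ := H E t v hv h2 ht
        exact hR.ne ((hval R hR.form).2 (hR.disc f ⟨hf.hol, hf.ne,
          fun G hG hGv t ht => (hval G hG).1 hGv t ht, hf.ess⟩))
      sub := fun E _ _ w z hz hw ht => by
        rcases Nat.lt_or_ge w 2 with h2 | h2
        · have hw1 : w = 1 := by omega
          subst hw1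
          have hff : IsFF ℂ E := ⟨Pool.Agent.Q72.NA.ess_of_adjoin hz.gen, by rw [ht]; simp⟩
          rcases le_or_gt (canDeg ℂ E) 0 with h3 | h3
          · right
            exact ⟨E, inferInstance, inferInstance, hff, z,
              ⟨(isGeneric_of hz.ne hz.gen).1, hz.spec⟩, hz.gen, h3, rfl⟩
          · left
            exact gt_of_canDeg h3
        · left
          obtain ⟨R, hR⟩ := H E w z hz h2 ht
          exact hR.sub E w z ⟨hz.ne, hz.gen, fun _ _ h => h⟩ hR.ne hw ht
      degree := by
        refine ⟨A, fun L _ _ _ v hv hn => ?_⟩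
        rcases hA L v hn (hI L v hv) with h1 | h1
        · exact Or.inl h1
        · exact Or.inr (hWl h1) }

end Pool.Agent.J6H55.CC
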