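import Pool.Agent.J6H55.CC.Defs
import Pool.Agent.J6H55.CC.Sets
import Pool.Agent.J6H55.CC.Special
import Pool.Agent.J6H55.SB.Main
import Pool.Agent.J6H55.MF.Congr

/-!
# Varieties whose subvarieties carry maps with many preperiodic points: main theorems
-/

set_option autoImplicit false
set_option linter.overlappingInstances false
set_option linter.unusedSectionVars false

namespace Pool.Agent.J6H55.CC

open FF Filter Metric Topology
open Pool.Agent.W602.GT (IsForm val coords GeneralType val_smul BrodySpecial Special)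
open Pool.Agent.Y216 (OnVar)
open Pool.Agent.Y221.PD
open Pool.Agent.Y221.BD (EntireCurve)
open Pool.Agent.W603.LV (canDeg)
open Pool.Agent.W603.PV (pht)
open Pool.Agent.TH466.QG (SubOf)
open Pool.Agent.Q271.RC (IsGeneric IsPoint Nonconst)
open Pool.Agent.Q103.EC (HypOff prePer Isotrivial)
open Pool.Agent.Q103.VR (DefinedOver)
open Pool.Agent.Q103.SF
open Pool.Agent.J6H55.MF
open Pool.Agent.J6H55.SB

/-- **Hyperbolicity of the varieties which carry maps.** -/
theorem hyp_of_carries : ∃ B : ℕ → ℕ, ∀ (K : Type) [Field K] [Algebra ℂ K] (M : ℕ)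
    (x : Fin (M + 1) → K), x ≠ 0 → coords ℂ x = ⊤ → Carries B K → ∃ R, HypOff x R := by
  obtain ⟨B, hB⟩ := joint_cx
  refine ⟨B, ?_⟩
  rintro K _ _ M x hx hgen ⟨J, _, d, p, q, hd, hco, hmax, hmany, hfin⟩
  obtain ⟨E, hE, -, -, h⟩ := hB K M x hx hgen J d p q hd hco hmax hmany
  have halg := hfin E hE.defined
  have hEtop : E = ⊤ := by
    rw [eq_top_iff]
    intro y _
    exact hE.closed y (halg.isAlgebraic y)
  obtain ⟨y, hyx, hy⟩ := model_top hx hgen hEtop
  obtain ⟨⟨S, hS⟩, -⟩ := h M 1 y MvPolynomial.X 1 hy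
  have h1 : (fun i => (y i : K)) = x := funext hyx
  rw [h1] at hS
  exact ⟨S, hS⟩

section

variable {M : ℕ} {K : Type} [Field K] [Algebra ℂ K] {x : Fin (M + 1) → K}

/-- subvarieties of the full dimension -/
theorem full_of (hx : x ≠ 0) (hgen : coords ℂ x = ⊤) {w : ℕ} (hw : Algebra.trdeg ℂ K = w)
    {E : Type} [Field E] [Algebra ℂ E] {t : ℕ} {z : Fin (M + 1) → E} (hz : SubOf ℂ x z)
    (ht : Algebra.trdeg ℂ E = t) : t ≤ w ∧ (t = w → ∀ G : MvPolynomial (Fin (M + 1)) ℂ, IsForm G →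
      (val x G = 0 ↔ val z G = 0)) := by
  obtain ⟨h1, h2⟩ := Pool.Agent.Q96.OS.gen_point' (isGeneric_of hx hgen) hw E z t
    (fun G D hG hGx => hz.spec G ⟨D, hG⟩ hGx) (isGeneric_of hz.ne hz.gen) ht
  refine ⟨h1, fun htw G hG => ?_⟩
  obtain ⟨D, hD⟩ := hG
  obtain ⟨σ, l, hl, hzl, -⟩ := h2 htw
  have h3 : z = fun i => l * (fun i => σ (x i)) i := funext hzl
  have h4 : val (fun i => σ (x i)) G = σ (val x G) := by
    unfold Pool.Agent.W602.GT.val
    rw [MvPolynomial.comp_aeval_apply]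
  rw [h3, val_smul hD, h4, mul_eq_zero, or_iff_right (pow_ne_zero _ hl), map_eq_zero]

/-- constant maps -/
theorem coords_bot_of_const {N : ℕ} {g : Fin (N + 1) → MvPolynomial (Fin (M + 1)) ℂ} {e : ℕ}
    (hg : ∀ i, (g i).IsHomogeneous e) {S : Type} {f : S → Fin (M + 1) → ℂ}
    (hdense : ∀ G : MvPolynomial (Fin (M + 1)) ℂ, IsForm G →
      (∀ t, MvPolynomial.eval (f t) G = 0) → val x G = 0)
    (hconst : ∀ i j s t, MvPolynomial.eval (f s) (g i) * MvPolynomial.eval (f t) (g j) =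
      MvPolynomial.eval (f s) (g j) * MvPolynomial.eval (f t) (g i)) :
    coords ℂ (fun i => val x (g i)) = ⊥ := by
  refine coords_bot fun i j hj => ?_
  obtain ⟨t, ht⟩ : ∃ t, MvPolynomial.eval (f t) (g j) ≠ 0 := by
    by_contra hcon
    push Not at hcon
    exact hj (hdense (g j) ⟨e, hg j⟩ hcon)
  refine ⟨MvPolynomial.eval (f t) (g i) / MvPolynomial.eval (f t) (g j), ?_⟩
  set a := MvPolynomial.eval (f t) (g i) with ha
  set b := MvPolynomial.eval (f t) (g j) with hb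
  have h1 := hdense (MvPolynomial.C b * g i - MvPolynomial.C a * g j) ⟨e, by
      refine MvPolynomial.IsHomogeneous.sub ?_ ?_
      · simpa using (MvPolynomial.isHomogeneous_C (Fin (M + 1)) b).mul (hg i)
      · simpa using (MvPolynomial.isHomogeneous_C (Fin (M + 1)) a).mul (hg j)⟩ (fun s => by
    rw [map_sub, map_mul, map_mul, MvPolynomial.eval_C, MvPolynomial.eval_C]
    have h2 := hconst i j s t
    linear_combination h2)
  have h3 : algebraMap ℂ K b * val x (g i) - algebraMap ℂ K a * val x (g j) = 0 := by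
    rw [← h1]
    unfold Pool.Agent.W602.GT.val
    rw [map_sub, map_mul, map_mul, MvPolynomial.aeval_C, MvPolynomial.aeval_C]
  have hb0 : algebraMap ℂ K b ≠ 0 := (_root_.map_ne_zero _).2 ht
  rw [map_div₀]
  field_simp
  linear_combination h3

end

/-- There are no Zariski dense entire curves and no Zariski dense meromorphic images of affine spaces. -/
def NoDense {M : ℕ} {K : Type} [Field K] [Algebra ℂ K] (x : Fin (M + 1) → K) : Prop :=
  (∀ f, EntireCurve x f → ∃ G : MvPolynomial (Fin (M + 1)) ℂ, IsForm G ∧ val x G ≠ 0 ∧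
    ∀ t, MvPolynomial.eval (fun i => f i t) G = 0) ∧
  ∀ g u, MeroMap x g u → ∃ G : MvPolynomial (Fin (M + 1)) ℂ, IsForm G ∧ val x G ≠ 0 ∧
    ∀ t, MvPolynomial.eval (fun i => u i t) G = 0

/-- **Varieties which carry a map which is not isotrivial.** -/
theorem noDense_of_one : ∃ B : ℕ → ℕ, ∀ (K : Type) [Field K] [Algebra ℂ K] (M : ℕ)
    (x : Fin (M + 1) → K), x ≠ 0 → coords ℂ x = ⊤ → CarriesOne B K → NoDense x := by
  obtain ⟨B, hB⟩ := joint_cx
  refine ⟨B, ?_⟩
  rintro K _ _ M x hx hgen ⟨d, p, q, hd, hco, hmax, hmany, hiso⟩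
  obtain ⟨E, hE, -, ⟨N, e, y, g, τ, hy⟩, h⟩ := hB K M x hx hgen Unit (fun _ => d) (fun _ => p)
    (fun _ => q) (fun _ => hd) (fun _ => hco) (fun _ => hmax) (fun _ => hmany)
  obtain ⟨-, R, hR⟩ := h N e y g τ hy
  have hne : coords ℂ (fun i => val x (g i)) ≠ ⊥ := fun h0 =>
    hiso (isotrivial_of_alg (alg_of_bot hy h0) (hE.defined ()))
  refine ⟨fun f hf => ?_, fun m u hu => ?_⟩
  · by_contra hcon
    push Not at hcon
    have hdense : ∀ G : MvPolynomial (Fin (M + 1)) ℂ, IsForm G →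
        (∀ t, MvPolynomial.eval (fun i => f i t) G = 0) → val x G = 0 := by
      intro G hG h0
      by_contra hGx
      obtain ⟨t, ht⟩ := hcon G hG hGx
      exact ht (h0 t)
    exact hne (coords_bot_of_const hy.hom (f := fun t i => f i t) hdense
      (hR.curve f hf (hcon R hR.form hR.ne)))
  · by_contra hcon
    push Not at hcon
    have hdense : ∀ G : MvPolynomial (Fin (M + 1)) ℂ, IsForm G →
        (∀ t, MvPolynomial.eval (fun i => u i t) G = 0) → val x G = 0 := by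
      intro G hG h0
      by_contra hGx
      obtain ⟨t, ht⟩ := hcon G hG hGx
      exact ht (h0 t)
    exact hne (coords_bot_of_const hy.hom (f := fun t i => u i t) hdense
      (hR.mero m u hu (hcon R hR.form hR.ne)))

section

variable {M : ℕ} {K : Type} [Field K] [Algebra ℂ K] {x : Fin (M + 1) → K}

theorem noDense_congr {L : Type} [Field L] [Algebra ℂ L] {z : Fin (M + 1) → L}
    (h : ∀ G : MvPolynomial (Fin (M + 1)) ℂ, IsForm G → (val x G = 0 ↔ val z G = 0))
    (hx : NoDense x) : NoDense z := by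
  refine ⟨fun f hf => ?_, fun g u hu => ?_⟩
  · obtain ⟨G, hG, hGx, h0⟩ := hx.1 f ⟨hf.hol, hf.ne, fun G hG hGx => hf.mem G hG ((h G hG).1 hGx),
      hf.nonconst⟩
    exact ⟨G, hG, fun hz => hGx ((h G hG).2 hz), h0⟩
  · obtain ⟨G, hG, hGx, h0⟩ := hx.2 g u ⟨hu.hol, fun G hG hGx => hu.mem G hG ((h G hG).1 hGx),
      hu.nonconst⟩
    exact ⟨G, hG, fun hz => hGx ((h G hG).2 hz), h0⟩

/-- **Special sets, without finiteness.** -/
theorem equal_sets (H : ∀ (E : Type) [Field E] [Algebra ℂ E] (w : ℕ) (z : Fin (M + 1) → E),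
      SubOf ℂ x z → 2 ≤ w → Algebra.trdeg ℂ E = w → NoDense z) : EqualSets x := by
  have hlow : S_low := Pool.Agent.Q24.SF.low_curve Pool.Agent.Q95.SF.wei Pool.Agent.Q111.SF.cls
  have hent : ∀ f, EntireCurve x f → vanOn Set.univ (fun t i => f i t) ∈ lowCurves x := by
    intro f hf
    refine CC.entire_low hf fun E _ _ t v hv hval h2 ht => ?_
    obtain ⟨G, hG, hGv, h0⟩ := (H E t v hv h2 ht).1 f ⟨hf.hol, hf.ne,
      fun G hG hGv t => (hval G hG).1 hGv t, hf.nonconst⟩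
    exact hGv ((hval G hG).2 h0)
  have hmero : ∀ g u, MeroMap x g u → vanOn Set.univ (fun t i => u i t) ∈ lowCurves x := by
    intro g u hu
    refine CC.mero_low hu hent fun E _ _ t v hv hval h2 ht => ?_
    obtain ⟨G, hG, hGv, h0⟩ := (H E t v hv h2 ht).2 g u ⟨hu.hol,
      fun G hG hGv t => (hval G hG).1 hGv t, hu.nonconst⟩
    exact hGv ((hval G hG).2 h0)
  refine ⟨hent, hmero, ?_, ?_, ?_⟩
  · ext G
    constructor
    · rintro ⟨hG, h⟩
      refine ⟨hG, fun V hV => ?_⟩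
      obtain ⟨f, hf, rfl⟩ := curve_of_low hlow hV
      exact ⟨hG, fun t _ => h f hf t⟩
    · rintro ⟨hG, h⟩
      exact ⟨hG, fun f hf t => (h _ (hent f hf)).2 t (Set.mem_univ _)⟩
  · ext G
    constructor
    · rintro ⟨hG, h⟩
      refine ⟨hG, fun V hV => ?_⟩
      obtain ⟨f, hf, rfl⟩ := curve_of_low hlow hV
      refine ⟨hG, fun t _ => ?_⟩
      exact h 1 _ (mero_of_entire hf) (fun _ => t)
    · rintro ⟨hG, h⟩
      exact ⟨hG, fun g u hu t => (h _ (hmero g u hu)).2 t (Set.mem_univ _)⟩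
  · ext G
    constructor
    · rintro ⟨hG, h⟩
      refine ⟨hG, fun V hV => ?_⟩
      obtain ⟨E, _, _, _, v, hE, hv, hn, rfl⟩ := ell_of_low hV
      exact ⟨hG, h E hE v hv hn⟩
    · rintro ⟨hG, h⟩
      refine ⟨hG, fun E _ _ _ hE v hv hn => ?_⟩
      obtain ⟨f, hf, hfv⟩ := curve_of_ell Pool.Agent.Q95.SF.wei hE hv hn
      have h1 := h _ (hent f hf)
      rw [hfv] at h1
      exact h1.2

end

/-- **The special sets of Lang.** -/
theorem sets_main : ∃ B : ℕ → ℕ, ∀ (K : Type) [Field K] [Algebra ℂ K] (M : ℕ)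
    (x : Fin (M + 1) → K), x ≠ 0 → coords ℂ x = ⊤ →
    ((∀ (E : Type) [Field E] [Algebra ℂ E] (w : ℕ) (z : Fin (M + 1) → E), SubOf ℂ x z → 2 ≤ w →
      Algebra.trdeg ℂ E = w → CarriesOne B E) → EqualSets x) ∧
    (Algebra.trdeg ℂ K = (2 : ℕ) → CarriesOne B K → EqualSets x) := by
  obtain ⟨B, hB⟩ := noDense_of_one
  refine ⟨B, fun K _ _ M x hx hgen => ⟨fun H => ?_, fun htr h => ?_⟩⟩
  · exact equal_sets fun E _ _ w z hz hw ht => hB E M z hz.ne hz.gen (H E w z hz hw ht)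
  · refine equal_sets fun E _ _ w z hz hw ht => ?_
    obtain ⟨h1, h2⟩ := full_of hx hgen htr hz ht
    exact noDense_congr (h2 (by omega)) (hB K M x hx hgen h)

/-- **Notions of hyperbolicity.** -/
theorem class_main : ∃ B : ℕ → ℕ, ∀ (K : Type) [Field K] [Algebra ℂ K] (M : ℕ)
    (x : Fin (M + 1) → K), x ≠ 0 → coords ℂ x = ⊤ →
    ((∀ (E : Type) [Field E] [Algebra ℂ E] (w : ℕ) (z : Fin (M + 1) → E), SubOf ℂ x z → 2 ≤ w →
      Algebra.trdeg ℂ E = w → Carries B E) ∨ (Algebra.trdeg ℂ K = (2 : ℕ) ∧ Carries B K)) →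
    SpecialSets x ∧ List.TFAE [KobayashiHyp x, BrodyHyp x, PicardHyp x, NoMero x, NoElliptic x,
      AlgHyp x, AllGeneral x, GeomHyp x, lowCurves x = ∅] := by
  obtain ⟨B, hB⟩ := hyp_of_carries
  refine ⟨B, fun K _ _ M x hx hgen h => ?_⟩
  have hs : SpecialSets x := by
    rcases h with H | ⟨htr, h⟩
    · exact special_all fun E _ _ w z hz hw ht => hB E M z hz.ne hz.gen (H E w z hz hw ht)
    · refine special_all fun E _ _ w z hz hw ht => ?_
      obtain ⟨h1, h2⟩ := full_of hx hgen htr hz ht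
      obtain ⟨R, hR⟩ := hB K M x hx hgen h
      exact ⟨R, hypOff_congr (h2 (by omega)) hR⟩
  exact ⟨hs, tfae Pool.Agent.Q95.SF.wei Pool.Agent.Q239.SF.ptd Pool.Agent.Q239.SF.kob hs⟩

end Pool.Agent.J6H55.CC
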