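import Pool.Agent.J6H55.CC.Ent

/-!
# Meromorphic images of affine spaces in projective varieties of any dimension
-/

set_option autoImplicit false
set_option linter.overlappingInstances false
set_option linter.unusedSectionVars false

namespace Pool.Agent.J6H55.CC

open FF Filter Metric Topology
open Pool.Agent.W602.GT (IsForm val coords GeneralType val_smul)
open Pool.Agent.Y216 (OnVar)
open Pool.Agent.Y221.PD
open Pool.Agent.Y221.BD (EntireCurve)
open Pool.Agent.W603.LV (canDeg)
open Pool.Agent.TH466.QG (SubOf)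
open Pool.Agent.Q271.RC (IsGeneric IsPoint Nonconst)
open Pool.Agent.Q103.SF (van vanOn lowCurves exists_trdeg_of_gen exists_common diff_eval
  nonconst_of_low)

variable {M : ℕ} {K : Type} [Field K] [Algebra ℂ K] {x : Fin (M + 1) → K}

/-- the generic point of the closure of the image -/
theorem mero_generic {g : ℕ} {u : Fin (M + 1) → (Fin g → ℂ) → ℂ} (hu : MeroMap x g u) :
    ∃ (E : Type) (_ : Field E) (_ : Algebra ℂ E) (v : Fin (M + 1) → E), SubOf ℂ x v ∧
      ∀ G : MvPolynomial (Fin (M + 1)) ℂ, IsForm G →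
        (val v G = 0 ↔ ∀ t, MvPolynomial.eval (fun i => u i t) G = 0) := by
  classical
  let U : Fin (M + 1) → (Fin (g + 1) → ℂ) → ℂ := fun i s => s 0 * u i (fun j => s j.succ)
  have hU : ∀ i, Differentiable ℂ (U i) := by
    intro i
    have h1 : Differentiable ℂ fun s : Fin (g + 1) → ℂ => u i (fun j => s j.succ) :=
      (hu.hol i).comp (differentiable_pi.2 fun j => differentiable_apply _)
    exact (differentiable_apply 0).mul h1
  -- the ideal
  let P : Ideal (MvPolynomial (Fin (M + 1)) ℂ) :=
    { carrier := {G | ∀ s, MvPolynomial.eval (fun i => U i s) G = 0}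
      add_mem' := fun {a b} ha hb s => by rw [map_add, ha s, hb s, add_zero]
      zero_mem' := fun s => map_zero _
      smul_mem' := fun c {a} ha s => by rw [smul_eq_mul, map_mul, ha s, mul_zero] }
  have hPmem : ∀ G, G ∈ P ↔ ∀ s, MvPolynomial.eval (fun i => U i s) G = 0 := fun G => Iff.rfl
  have hform : ∀ G : MvPolynomial (Fin (M + 1)) ℂ, IsForm G →
      (G ∈ P ↔ ∀ t, MvPolynomial.eval (fun i => u i t) G = 0) := by
    rintro G ⟨e, he⟩
    rw [hPmem]
    have hsc : ∀ (c : ℂ) (w : Fin (M + 1) → ℂ), MvPolynomial.eval (fun i => c * w i) G =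
        c ^ e * MvPolynomial.eval w G := by
      intro c w
      have h1 := val_smul he c w
      exact h1
    constructor
    · intro h t
      have h1 := h (Fin.cons 1 t)
      have h2 : (fun i => U i (Fin.cons 1 t)) = fun i => u i t := by
        funext i
        simp [U]
      rwa [h2] at h1
    · intro h s
      show MvPolynomial.eval (fun i => s 0 * u i (fun j => s j.succ)) G = 0
      rw [hsc, h, mul_zero]
  have hprime : P.IsPrime := by
    refine ⟨?_, ?_⟩
    · intro h0
      have h1 : (1 : MvPolynomial (Fin (M + 1)) ℂ) ∈ P := by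
        rw [h0]
        exact Submodule.mem_top
      have h2 := (hPmem 1).1 h1 0
      rw [map_one] at h2
      exact one_ne_zero h2
    · intro G H hGH
      by_contra hcon
      push Not at hcon
      obtain ⟨hG, hH⟩ := hcon
      rw [hPmem] at hG hH hGH
      push Not at hG hH
      obtain ⟨p, hp⟩ := exists_common (Finset.univ : Finset (Fin 2))
        (fun b s => MvPolynomial.eval (fun i => U i s) (if b = 0 then G else H))
        (fun b => diff_eval hU _) (by
          intro b _
          by_cases hb : b = 0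
          · simp only [hb, if_true]
            exact hG
          · simp only [hb, if_false]
            exact hH)
      have h1 := hp 0 (Finset.mem_univ _)
      have h2 := hp 1 (Finset.mem_univ _)
      simp only [if_true] at h1
      simp only [one_ne_zero, if_false] at h2
      have h3 := hGH p
      rw [map_mul] at h3
      exact mul_ne_zero h1 h2 h3
  have hX : ∃ j, (MvPolynomial.X j : MvPolynomial (Fin (M + 1)) ℂ) ∉ P := by
    by_contra hcon
    push Not at hcon
    obtain ⟨i, j, a, b, hab⟩ := hu.nonconst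
    have h1 : ∀ k t, u k t = 0 := by
      intro k t
      have h2 := (hform _ ⟨1, MvPolynomial.isHomogeneous_X ℂ k⟩).1 (hcon k) t
      rwa [MvPolynomial.eval_X] at h2
    apply hab
    rw [h1 i a, h1 j a, zero_mul, zero_mul]
  obtain ⟨E, i1, i2, v, hv, hgen, hvP⟩ := exists_generic P hX
  exact ⟨E, i1, i2, v, ⟨hv, hgen, fun G hG hGx =>
    (hvP G hG).2 ((hform G hG).2 fun t => hu.mem G hG hGx t)⟩,
    fun G hG => (hvP G hG).trans (hform G hG)⟩

/-- **Meromorphic images of affine spaces.** -/
theorem mero_low {g : ℕ} {u : Fin (M + 1) → (Fin g → ℂ) → ℂ} (hu : MeroMap x g u)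
    (hent : ∀ f, EntireCurve x f → vanOn Set.univ (fun t i => f i t) ∈ lowCurves x)
    (hno : ∀ (E : Type) [Field E] [Algebra ℂ E] (t : ℕ) (v : Fin (M + 1) → E), SubOf ℂ x v →
      (∀ G : MvPolynomial (Fin (M + 1)) ℂ, IsForm G →
        (val v G = 0 ↔ ∀ t, MvPolynomial.eval (fun i => u i t) G = 0)) → 2 ≤ t →
      Algebra.trdeg ℂ E = t → False) :
    vanOn Set.univ (fun t i => u i t) ∈ lowCurves x := by
  classical
  obtain ⟨E, _, _, v, hv, hval⟩ := mero_generic hu
  obtain ⟨t, ht⟩ := exists_trdeg_of_gen hv.gen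
  have htlt : t < 2 := by
    by_contra hcon
    exact hno E t v hv hval (not_lt.1 hcon) ht
  -- an entire curve
  obtain ⟨i, j, a, b, hab⟩ := hu.nonconst
  let ℓ : ℂ → Fin g → ℂ := fun s => a + s • (b - a)
  have hℓ : Differentiable ℂ ℓ := by
    simp only [ℓ]
    fun_prop
  have h0 : ℓ 0 = a := by simp [ℓ]
  have h1 : ℓ 1 = b := by simp [ℓ]
  obtain ⟨f, hf, -⟩ := curve_of_entire (x := v) (u := fun i s => u i (ℓ s))
    (fun i => (hu.hol i).comp hℓ) (fun G hG hxG s => (hval G hG).1 hxG (ℓ s)) (i := i) (j := j)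
    (a := 0) (b := 1) (by
      simp only [h0, h1]
      exact hab)
  have hfx : EntireCurve x f := ⟨hf.hol, hf.ne, fun G hG hGx => hf.mem G hG (hv.spec G hG hGx),
    hf.nonconst⟩
  have hV := hent f hfx
  obtain ⟨L, _, _, _, v', hv', hgen', hc, hVv⟩ := id hV
  have hnc : Nonconst v' := nonconst_of_low hv' hgen'
  have hpt : IsPoint v v' := by
    intro G D hG hGv
    have h2 : G ∈ vanOn Set.univ (fun t i => f i t) := ⟨⟨D, hG⟩, fun t _ => hf.mem G ⟨D, hG⟩ hGv t⟩
    rw [hVv] at h2
    exact h2.2
  obtain ⟨ht1, hsame⟩ := sameCurve_of (isGeneric_of hv.ne hv.gen) ht hnc hpt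
  have hs := hsame (by omega)
  have h3 : vanOn Set.univ (fun t i => u i t) = vanOn Set.univ (fun t i => f i t) := by
    rw [hVv]
    ext G
    constructor
    · rintro ⟨⟨D, hD⟩, h⟩
      exact ⟨⟨D, hD⟩, (hs G D hD).1 ((hval G ⟨D, hD⟩).2 fun t => h t (Set.mem_univ _))⟩
    · rintro ⟨⟨D, hD⟩, h⟩
      exact ⟨⟨D, hD⟩, fun t _ => (hval G ⟨D, hD⟩).1 ((hs G D hD).2 h) t⟩
  rw [h3]
  exact hV

end Pool.Agent.J6H55.CC
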